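import Pool.Agent.H14.Ts1

set_option maxHeartbeats 1000000

namespace Pool.Agent.Results.MP_1235ca_co.Lower

open Finset Pool.Agent.H14.Ts

/-- `A` is a Tesler matrix with hook sums `α`. -/
def IsTesler {n : ℕ} (α : Fin n → ℕ) (A : Matrix (Fin n) (Fin n) ℕ) : Prop :=
  (∀ i j, j < i → A i j = 0) ∧
    ∀ i, (∑ j ∈ univ.filter (fun j => i ≤ j), (A i j : ℤ)) -
      (∑ k ∈ univ.filter (fun k => k < i), (A k i : ℤ)) = α i

/-- `T(α)`, the number of Tesler matrices with hook sums `α`. -/
noncomputable def T {n : ℕ} (α : Fin n → ℕ) : ℕ :=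
  Nat.card {A : Matrix (Fin n) (Fin n) ℕ // IsTesler α A}

def IsT {n : ℕ} (α : Fin n → ℕ) (A : Matrix (Fin n) (Fin n) ℕ) : Prop :=
  (∀ i j, j < i → A i j = 0) ∧ ∀ i, ∑ j, A i j + A i i = α i + ∑ k, A k i

theorem isT_iff {n : ℕ} (α : Fin n → ℕ) (A : Matrix (Fin n) (Fin n) ℕ) : IsTesler α A ↔ IsT α A := by
  refine and_congr_right fun h => forall_congr' fun i => ?_
  have h1 : ∑ j ∈ univ.filter (fun j => i ≤ j), (A i j : ℤ) = ∑ j, (A i j : ℤ) :=
    sum_filter_of_ne fun j _ hj => by
      by_contra e; exact hj (by rw [h i j (not_le.1 e)]; rfl)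
  have h2 : ∑ k ∈ univ.filter (fun k => k < i), (A k i : ℤ) + A i i = ∑ k, (A k i : ℤ) := by
    rw [← sum_erase_add _ _ (mem_univ i)]
    congr 1
    refine sum_subset (fun k hk => ?_) (fun k hk hk' => ?_)
    · simp only [mem_filter, mem_univ, true_and] at hk; simp [hk.ne]
    · simp only [mem_filter, mem_univ, true_and, mem_erase, and_true] at hk hk'
      rw [h k i (lt_of_le_of_ne (not_lt.1 hk') (Ne.symm hk))]; rfl
  rw [h1]
  zify
  constructor <;> intro e <;> linarith

def ext {n : ℕ} (a : ℕ) (A : Matrix (Fin n) (Fin n) ℕ) (c : Fin n → ℕ) :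
    Matrix (Fin (n + 1)) (Fin (n + 1)) ℕ := fun i j =>
  Fin.lastCases (motive := fun _ => ℕ) (Fin.lastCases (motive := fun _ => ℕ) (a + ∑ k, c k) (fun _ => 0) j)
    (fun i' => Fin.lastCases (motive := fun _ => ℕ) (c i')
      (fun j' => A i' j' - if i' = j' then c i' else 0) j) i

def TS : (n : ℕ) → (Fin n → ℕ) → Finset (Matrix (Fin n) (Fin n) ℕ)
  | 0, _ => {0}
  | n + 1, α => ((TS n (Fin.init α)).sigma fun A => Fintype.piFinset fun i => range (A i i + 1)).image
      fun p => ext (α (Fin.last n)) p.1 p.2

theorem sum_sub_ite {n : ℕ} (f : Fin n → ℕ) (i : Fin n) (c : ℕ) (h : c ≤ f i) :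
    ∑ j, (f j - if i = j then c else 0) + c = ∑ j, f j := by
  rw [← sum_erase_add _ _ (mem_univ i), ← sum_erase_add _ f (mem_univ i), if_pos rfl,
    sum_congr rfl (g := fun j => f j) fun j hj => by rw [if_neg (mem_erase.1 hj).1.symm]; rfl]
  omega

theorem mem_TS (n : ℕ) : ∀ (α : Fin n → ℕ) (A : Matrix (Fin n) (Fin n) ℕ), A ∈ TS n α ↔ IsT α A := by
  induction n with
  | zero => intro α A; simp [TS, IsT, Subsingleton.elim A 0]
  | succ n ih =>
    intro α B
    simp only [TS, mem_image, mem_sigma, ih, Fintype.mem_piFinset, mem_range]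
    constructor
    · rintro ⟨⟨A, c⟩, ⟨⟨h1, h2⟩, h3⟩, rfl⟩
      simp only at h1 h2 h3 ⊢
      refine ⟨fun i j => ?_, fun i => ?_⟩
      · refine Fin.lastCases ?_ (fun i => ?_) i <;> refine Fin.lastCases ?_ (fun j => ?_) j <;>
          intro h <;> simp [ext] at h ⊢
        · exact absurd h (not_lt.2 (Fin.le_last _))
        · rw [h1 i j h]; simp
      · refine Fin.lastCases ?_ (fun i => ?_) i
        · simp [ext, Fin.sum_univ_castSucc]; ring
        · have a1 := sum_sub_ite (fun j => A i j) i (c i) (by have := h3 i; omega)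
          have a2 := sum_sub_ite (fun k => A k i) i (c i) (by have := h3 i; omega)
          have a3 : ∑ k, (A k i - if k = i then c k else 0) = ∑ k, (A k i - if i = k then c i else 0) :=
            sum_congr rfl fun k _ => by
              by_cases e : k = i
              · simp [e]
              · rw [if_neg e, if_neg (Ne.symm e)]
          have := h2 i; have := h3 i
          simp only [ext, Fin.sum_univ_castSucc, Fin.lastCases_castSucc, Fin.lastCases_last, if_true,
            Fin.init] at this ⊢
          simp only [Fin.init] at *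
          omega
    · rintro ⟨h1, h2⟩
      have hl : ∀ j : Fin n, B (Fin.last n) j.castSucc = 0 := fun j => h1 _ _ (Fin.castSucc_lt_last j)
      refine ⟨⟨fun i j => B i.castSucc j.castSucc + if i = j then B i.castSucc (Fin.last n) else 0,
        fun i => B i.castSucc (Fin.last n)⟩, ⟨⟨fun i j h => ?_, fun i => ?_⟩, fun i => ?_⟩, ?_⟩
      · simp [h1 _ _ (Fin.castSucc_lt_castSucc_iff.2 h), h.ne']
      · have := h2 i.castSucc
        simp only [Fin.sum_univ_castSucc, hl] at this
        simp only [sum_add_distrib, sum_ite_eq, sum_ite_eq', mem_univ, if_true, Fin.init]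
        omega
      · simp
      · funext i j
        refine Fin.lastCases ?_ (fun i => ?_) i <;> refine Fin.lastCases ?_ (fun j => ?_) j <;>
          simp [ext, hl]
        have := h2 (Fin.last n)
        simp only [Fin.sum_univ_castSucc, hl, sum_const_zero] at this
        omega

theorem T_eq {n : ℕ} (α : Fin n → ℕ) : T α = (TS n α).card := by
  rw [T, ← Nat.card_eq_finsetCard]
  exact Nat.card_congr (Equiv.subtypeEquivRight fun A => by rw [isT_iff, mem_TS])

def dg {n : ℕ} (A : Matrix (Fin n) (Fin n) ℕ) : List ℕ := List.ofFn fun i => A i i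

def W (n : ℕ) (α : Fin n → ℕ) (φ : List ℕ → ℕ) : ℕ := ∑ A ∈ TS n α, φ (dg A)

theorem W_succ (n : ℕ) (α : Fin (n + 1) → ℕ) (φ : List ℕ → ℕ) :
    W (n + 1) α φ = W n (Fin.init α) (fun d => S (α (Fin.last n)) d φ) := by
  rw [W, TS, sum_image, sum_sigma]
  · refine sum_congr rfl fun A _ => ?_
    refine Eq.trans (sum_congr rfl fun c _ => ?_) (S_pi n (fun i => A i i) _ φ)
    simp [dg, List.ofFn_succ', ext, -List.ofFn_succ]
  · rintro ⟨A, c⟩ h ⟨A', c'⟩ h' e
    simp only [coe_sigma, Set.mem_sigma_iff, mem_coe, Fintype.mem_piFinset, mem_range] at h h'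
    have e1 : c = c' := funext fun i => by
      simpa [ext] using congrFun (congrFun e i.castSucc) (Fin.last n)
    subst e1
    have e2 : A = A' := by
      funext i j
      have := congrFun (congrFun e i.castSucc) j.castSucc
      simp only [ext, Fin.lastCases_castSucc] at this
      by_cases e' : i = j
      · subst e'; have := h.2 i; have := h'.2 i; simp only [if_true] at *; omega
      · simpa [e'] using this
    subst e2; rfl

theorem W_low (n : ℕ) (α : Fin (n + 1) → ℕ) {φ : List ℕ → ℕ} (h : Good φ) :
    T α * φ [∑ i, α i] ≤ W (n + 1) α φ := by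
  rw [T_eq, W, ← smul_eq_mul, ← sum_const]
  refine sum_le_sum fun A hA => ?_
  have h1 := sum_congr (s₁ := univ) rfl fun i _ => ((mem_TS _ _ _).1 hA).2 i
  rw [sum_add_distrib, sum_add_distrib, sum_comm, add_comm, add_left_inj] at h1
  rw [← h1, dg, List.ofFn_succ, Fin.sum_univ_succ, ← List.sum_ofFn]
  exact h.single _ _

noncomputable def T1 (n : ℕ) : ℕ := T (fun _ : Fin n => 1)

theorem W_iter (n j : ℕ) : ∀ φ, W (n + j) (fun _ => 1) φ = W n (fun _ => 1) (op^[j] φ) := by
  induction j with
  | zero => intro φ; rfl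
  | succ j ih => intro φ; rw [← add_assoc, W_succ, Function.iterate_succ_apply, ← ih]; rfl

theorem T1_step (k j : ℕ) (hk : 1 ≤ k) : T1 k * op^[j] (fun _ => 1) [k] ≤ T1 (k + j) := by
  obtain ⟨k, rfl⟩ : ∃ m, k = m + 1 := ⟨k - 1, by omega⟩
  have := W_low k (fun _ => 1) (good_one.iter j)
  rw [← W_iter] at this
  simpa [T1, W, T_eq] using this

theorem chain {k n a b g : ℕ} (hk : 1 ≤ k) (j : ℕ) (h : a ≤ T1 k) (hg : g ≤ op^[j] (fun _ => 1) [k])
    (e : n = k + j ∧ b = a * g) : b ≤ T1 n := by
  rw [e.1, e.2]; exact (Nat.mul_le_mul h hg).trans (T1_step k j hk)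

theorem small (n : ℕ) (h1 : 11 ≤ n) (h2 : n ≤ 45) : (n + 1) ^ (n - 1) ≤ T1 n := by
  have h0 : 1 ≤ T1 1 := by
    rw [T1, T_eq]; decide
  have h10 : 6499477726 ≤ T1 10 := chain (by norm_num) 9 h0 T10 (by norm_num)
  have h11 : 71494254986 ≤ T1 11 :=
    chain (by norm_num) 1 h10 (g := 11) (le_trans (by decide +kernel) (low 0 [10])) (by norm_num)
  have h12 : 2287816159552 ≤ T1 12 :=
    chain (by norm_num) 2 h10 (g := 352) (by have := G2 10; omega) (by norm_num)
  have h13 : 158002303519060 ≤ T1 13 :=
    chain (by norm_num) 3 h10 (g := 24310) (le_trans (by decide +kernel) (low 2 [10])) (by norm_num)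
  have h14 : 2615402835897852 ≤ T1 14 :=
    chain (by norm_num) 3 h11 (g := 36582) (le_trans (by decide +kernel) (low 2 [11])) (by norm_num)
  have h15 : 122624658335827648 ≤ T1 15 :=
    chain (by norm_num) 3 h12 (g := 53599) (le_trans (by decide +kernel) (low 2 [12])) (by norm_num)
  have h16 : 12121936725982283200 ≤ T1 16 :=
    chain (by norm_num) 3 h13 (g := 76720) (le_trans (by decide +kernel) (low 2 [13])) (by norm_num)
  have h17 : 281354575474547326752 ≤ T1 17 :=
    chain (by norm_num) 3 h14 (g := 107576) (le_trans (by decide +kernel) (low 2 [14])) (by norm_num)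
  have h18 : 18161202398169417979392 ≤ T1 18 :=
    chain (by norm_num) 3 h15 (g := 148104) (le_trans (by decide +kernel) (low 2 [15])) (by norm_num)
  have h19 : 2431454434307704311105600 ≤ T1 19 :=
    chain (by norm_num) 3 h16 (g := 200583) (le_trans (by decide +kernel) (low 2 [16])) (by norm_num)
  have h20 : 75310741926423032046361344 ≤ T1 20 :=
    chain (by norm_num) 3 h17 (g := 267672) (le_trans (by decide +kernel) (low 2 [17])) (by norm_num)
  have h21 : 4255045260038482544434800000 ≤ T1 21 :=
    chain (by norm_num) 2 h19 (g := 1750) (by have := G2 19; omega) (by norm_num)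
  have h22 : 150772105336698910156815410688 ≤ T1 22 :=
    chain (by norm_num) 2 h20 (g := 2002) (by have := G2 20; omega) (by norm_num)
  have h23 : 9688738057107624753678039600000 ≤ T1 23 :=
    chain (by norm_num) 2 h21 (g := 2277) (by have := G2 21; omega) (by norm_num)
  have h24 : 388388943347336392563956497932288 ≤ T1 24 :=
    chain (by norm_num) 2 h22 (g := 2576) (by have := G2 22; omega) (by norm_num)
  have h25 : 28097340365612111785666314840000000 ≤ T1 25 :=
    chain (by norm_num) 2 h23 (g := 2900) (by have := G2 23; omega) (by norm_num)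
  have h26 : 1262264065878843275832858618279936000 ≤ T1 26 :=
    chain (by norm_num) 2 h24 (g := 3250) (by have := G2 24; omega) (by norm_num)
  have h27 : 101909053506075129446611723924680000000 ≤ T1 27 :=
    chain (by norm_num) 2 h25 (g := 3627) (by have := G2 25; omega) (by norm_num)
  have h28 : 5089448713623496088158085948904701952000 ≤ T1 28 :=
    chain (by norm_num) 2 h26 (g := 4032) (by have := G2 26; omega) (by norm_num)
  have h29 : 455125832958131528108567959047620880000000 ≤ T1 29 :=
    chain (by norm_num) 2 h27 (g := 4466) (by have := G2 27; omega) (by norm_num)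
  have h30 : 25090982158163835714619363728100180623360000 ≤ T1 30 :=
    chain (by norm_num) 2 h28 (g := 4930) (by have := G2 28; omega) (by norm_num)
  have h31 : 2469057643797863539988981177833343274000000000 ≤ T1 31 :=
    chain (by norm_num) 2 h29 (g := 5425) (by have := G2 29; omega) (by norm_num)
  have h32 : 149341525805391150173414452909652275070238720000 ≤ T1 32 :=
    chain (by norm_num) 2 h30 (g := 5952) (by have := G2 30; omega) (by norm_num)
  have h33 : 16078503376411687372408245430050731400288000000000 ≤ T1 33 :=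
    chain (by norm_num) 2 h31 (g := 6512) (by have := G2 31; omega) (by norm_num)
  have h34 : 1061220882373109513132283102375989066649116344320000 ≤ T1 34 :=
    chain (by norm_num) 2 h32 (g := 7106) (by have := G2 32; omega) (by norm_num)
  have h35 : 124367223616544401825577778401442407381227680000000000 ≤ T1 35 :=
    chain (by norm_num) 2 h33 (g := 7735) (by have := G2 33; omega) (by norm_num)
  have h36 : 8914255411934119910311178059958308159852577292288000000 ≤ T1 36 :=
    chain (by norm_num) 2 h34 (g := 8400) (by have := G2 34; omega) (by norm_num)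
  have h37 : 1131990469357787145416408939009928791983934343360000000000 ≤ T1 37 :=
    chain (by norm_num) 2 h35 (g := 9102) (by have := G2 35; omega) (by norm_num)
  have h38 : 87734101764255608157282614466109668909269065710698496000000 ≤ T1 38 :=
    chain (by norm_num) 2 h36 (g := 9842) (by have := G2 36; omega) (by norm_num)
  have h39 : 12022870775049057271467679341224453699661366660826560000000000 ≤ T1 39 :=
    chain (by norm_num) 2 h37 (g := 10621) (by have := G2 37; omega) (by norm_num)
  have h40 : 1003678124183084157319313109492294612322038111730390794240000000 ≤ T1 40 :=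
    chain (by norm_num) 2 h38 (g := 11440) (by have := G2 38; omega) (by norm_num)
  have h41 : 147881310533103404439052455897060780505834809928166688000000000000 ≤ T1 41 :=
    chain (by norm_num) 2 h39 (g := 12300) (by have := G2 39; omega) (by norm_num)
  have h42 : 13250558595465077044929571671517273471875547151064619265556480000000 ≤ T1 42 :=
    chain (by norm_num) 2 h40 (g := 13202) (by have := G2 40; omega) (by norm_num)
  have h43 : 2092076900111813862599275093575718861816045056053774135136000000000000 ≤ T1 43 :=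
    chain (by norm_num) 2 h41 (g := 14147) (by have := G2 41; omega) (by norm_num)
  have h44 : 200560454900959406152053996820085451270308281678514077203462881280000000 ≤ T1 44 :=
    chain (by norm_num) 2 h42 (g := 15136) (by have := G2 42; omega) (by norm_num)
  have h45 : 33828883474808030158230278263119373995565448556389527765149120000000000000 ≤ T1 45 :=
    chain (by norm_num) 2 h43 (g := 16170) (by have := G2 43; omega) (by norm_num)
  interval_cases n <;> norm_num <;> omega

theorem ineq (k : ℕ) (hk : 42 ≤ k) :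
    6 * (k + 3) ^ (k + 1) ≤ (k + 1) ^ (k - 1) * ((k + 1) * (k + 2) * (k + 6)) := by
  obtain ⟨m, rfl⟩ : ∃ m, k = m + 1 := ⟨k - 1, by omega⟩
  have hm : (41 : ℝ) ≤ m := by exact_mod_cast (by omega : 41 ≤ m)
  have h1 : ((m : ℝ) + 4) ^ m ≤ 7.3891 * (m + 2) ^ m := by
    have e : ((m : ℝ) + 4) = (m + 2) * (2 / (m + 2) + 1) := by field_simp; ring
    rw [e, mul_pow, mul_comm]
    gcongr
    calc (2 / ((m : ℝ) + 2) + 1) ^ m ≤ Real.exp (2 / (m + 2)) ^ m := by
          gcongr; exact Real.add_one_le_exp _
      _ = Real.exp (m * (2 / (m + 2))) := (Real.exp_nat_mul _ _).symm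
      _ ≤ Real.exp (1 + 1) := by
          apply Real.exp_le_exp.2
          rw [← mul_div_assoc, div_le_iff₀ (by positivity)]; linarith
      _ ≤ 7.3891 := by
          rw [Real.exp_add]
          have := Real.exp_one_lt_d9; have := Real.exp_pos 1; nlinarith
  have h2 : 6 * 7.3891 * ((m : ℝ) + 4) ^ 2 ≤ (m + 2) * (m + 3) * (m + 7) := by nlinarith
  have h3 : (0 : ℝ) < (m + 2) ^ m := by positivity
  have : (6 * ((m : ℝ) + 4) ^ (m + 2)) ≤ (m + 2) ^ m * ((m + 2) * (m + 3) * (m + 7)) := by
    rw [pow_add]
    calc 6 * (((m : ℝ) + 4) ^ m * (m + 4) ^ 2) ≤ 6 * (7.3891 * (m + 2) ^ m * (m + 4) ^ 2) := by gcongr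
      _ = (m + 2) ^ m * (6 * 7.3891 * ((m : ℝ) + 4) ^ 2) := by ring
      _ ≤ _ := by gcongr
  rw [Nat.add_sub_cancel]
  exact_mod_cast this

theorem ones (n : ℕ) (h1 : 11 ≤ n) : (n + 1) ^ (n - 1) ≤ T1 n := by
  induction n using Nat.strong_induction_on with
  | _ n ih =>
    by_cases h : n ≤ 45
    · exact small n h1 h
    · obtain ⟨k, rfl⟩ : ∃ k, n = k + 2 := ⟨n - 2, by omega⟩
      have a1 := ih k (by omega) (by omega)
      have a2 := T1_step k 2 (by omega)
      have a3 := ineq k (by omega)
      rw [← G2] at a3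
      have a4 := Nat.mul_le_mul_right (op^[2] (fun _ => 1) [k]) a1
      rw [show k + 2 - 1 = k + 1 by omega, show k + 2 + 1 = k + 3 by omega]
      nlinarith

theorem result (n k : ℕ) (hk : 11 ≤ k) (hn : k ≤ n) :
    (k + 1) ^ (n - 1) ≤ T (fun i : Fin n => if i.val < k then 1 else 0) := by
  induction n, hn using Nat.le_induction with
  | base => simpa [T1] using ones k hk
  | succ n hn ih =>
    obtain ⟨m, rfl⟩ : ∃ m, n = m + 1 := ⟨n - 1, by omega⟩
    have h1 := W_low m (fun i => if i.val < k then 1 else 0) (good_one.app 0)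
    have h2 := W_succ (m + 1) (fun i => if i.val < k then 1 else 0) (fun _ => 1)
    have h3 : ∑ i : Fin (m + 1), (if i.val < k then 1 else 0) = k := by
      rw [Fin.sum_univ_eq_sum_range (fun i => if i < k then 1 else 0), ← card_filter]
      rw [show (range (m + 1)).filter (· < k) = range k by ext; simp; omega, card_range]
    rw [h3, S_one] at h1
    simp only [Fin.val_last, if_neg (by omega : ¬ m + 1 < k)] at h2
    have h4 : W (m + 1 + 1) (fun i => if i.val < k then 1 else 0) (fun _ => 1) =
        T (fun i : Fin (m + 1 + 1) => if i.val < k then 1 else 0) := by simp [W, T_eq]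
    rw [← h4, h2]
    refine le_trans ?_ h1
    rw [Nat.add_sub_cancel] at ih ⊢
    rw [pow_succ]
    exact Nat.mul_le_mul ih (by simp [pr])

end Pool.Agent.Results.MP_1235ca_co.Lower
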